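import Pool.Agent.H53.MW.Targets

/-!
MP_c62aed_lc, permanent lines and work memory, row ARM (after Pool/Agent/H31/FLX/ARX.lean).
-/

set_option autoImplicit false

namespace Pool.Agent.H20.MWK

open Finset
open Pool.Agent.H53.MW
open Pool.Agent.H53.MC (Clause Falsified SatBy Line Circuit U Viol toC scope Ins cnt H1 Covers InR
  Bad cf)
open Pool.Agent.H15.FLX (Scopes Signs clause cnf Few en idx FG BR)
open Pool.Agent.H97.SHL (DT bl)

namespace ARMaux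

theorem card_mono {α : Type} [Finite α] {P Q : α → Prop} (h : ∀ x, P x → Q x) :
    Nat.card {x // P x} ≤ Nat.card {x // Q x} :=
  Nat.card_le_card_of_injective (fun x : {x // P x} => (⟨x.1, h x.1 x.2⟩ : {x // Q x}))
    (fun _ _ hab => Subtype.ext (congrArg (fun z : {x // Q x} => z.1) hab))

theorem card_or {α : Type} [Finite α] (P Q : α → Prop) :
    Nat.card {x // P x ∨ Q x} ≤ Nat.card {x // P x} + Nat.card {x // Q x} := by
  classical
  have := Fintype.ofFinite α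
  simp only [Nat.card_eq_fintype_card]
  exact Fintype.card_subtype_or P Q

theorem card_ex {α : Type} [Finite α] (B : ℕ → α → Prop) (Y X : ℕ) :
    ∀ s : ℕ, (∀ i, i < s → Nat.card {x // B i x} * Y ≤ X) →
      Nat.card {x // ∃ i, i < s ∧ B i x} * Y ≤ s * X := by
  intro s
  induction s with
  | zero =>
    intro _
    have : IsEmpty {x : α // ∃ i, i < 0 ∧ B i x} := ⟨fun x => by
      obtain ⟨i, hi, _⟩ := x.2
      omega⟩
    simp
  | succ s ih =>
    intro h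
    have h1 := ih (fun i hi => h i (by omega))
    have h2 := h s (by omega)
    have h3 : Nat.card {x // ∃ i, i < s + 1 ∧ B i x} ≤
        Nat.card {x // (∃ i, i < s ∧ B i x) ∨ B s x} := by
      apply card_mono
      rintro x ⟨i, hi, hb⟩
      rcases Nat.lt_succ_iff_lt_or_eq.mp hi with h' | h'
      · exact Or.inl ⟨i, h', hb⟩
      · exact Or.inr (h' ▸ hb)
    have h4 := card_or (fun x => ∃ i, i < s ∧ B i x) (B s)
    calc _ ≤ (Nat.card {x // ∃ i, i < s ∧ B i x} + Nat.card {x // B s x}) * Y :=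
          Nat.mul_le_mul_right _ (h3.trans h4)
      _ = Nat.card {x // ∃ i, i < s ∧ B i x} * Y + Nat.card {x // B s x} * Y := by ring
      _ ≤ s * X + X := Nat.add_le_add h1 h2
      _ = (s + 1) * X := by ring

theorem le_two_pow {γ : ℝ} {n s : ℕ} (hγ : γ ≤ 1) (h : (s : ℝ) ≤ 2 ^ (γ * n)) :
    s ≤ 2 ^ n := by
  have h1 : (2 : ℝ) ^ (γ * n) ≤ 2 ^ ((n : ℕ) : ℝ) := by
    apply Real.rpow_le_rpow_of_exponent_le (by norm_num)
    have : (0 : ℝ) ≤ n := Nat.cast_nonneg n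
    nlinarith
  rw [Real.rpow_natCast] at h1
  have h2 : (s : ℝ) ≤ 2 ^ n := h.trans h1
  exact_mod_cast h2

theorem pow_split {γ : ℝ} (n : ℕ) : (2 : ℝ) ^ (γ * n) * 2 ^ ((1 - γ) * n) = 2 ^ n := by
  rw [← Real.rpow_add (by norm_num)]
  have : γ * n + (1 - γ) * n = ((n : ℕ) : ℝ) := by ring
  rw [this, Real.rpow_natCast]

/-- the family of the sets of all functions is small -/
theorem fam (hCHN : T_CHN) {n : ℕ} (E : ℕ → Finset (Fin n → Bool))
    (f : ℕ → (Fin n → Bool) → ℝ) (N : ℕ) (hN : N ≤ 2 ^ n) :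
    ∃ 𝓕 : Finset (Finset (Fin n → Bool)), (∀ i, i < N → ∀ a : ℝ, BR (E i) (f i) a ∈ 𝓕) ∧
      𝓕.card ≤ 2 ^ (2 * n + 2) := by
  classical
  refine ⟨(range N).biUnion fun i => univ.filter fun B => ∃ a : ℝ, B = BR (E i) (f i) a, ?_, ?_⟩
  · intro i hi a
    rw [mem_biUnion]
    exact ⟨i, mem_range.2 hi, mem_filter.2 ⟨mem_univ _, a, rfl⟩⟩
  · have h1 : ∀ i ∈ range N, (univ.filter fun B : Finset (Fin n → Bool) =>
        ∃ a : ℝ, B = BR (E i) (f i) a).card ≤ 2 ^ n + 1 := by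
      intro i _
      have h2 := hCHN {B : Finset (Fin n → Bool) | ∃ a : ℝ, B = BR (E i) (f i) a} (by
        rintro B ⟨a, rfl⟩ B' ⟨a', rfl⟩ _
        rcases le_total a a' with h | h
        · left
          intro x hx
          unfold BR at hx ⊢
          rw [mem_filter] at hx ⊢
          exact ⟨hx.1, hx.2.1, hx.2.2.trans_le h⟩
        · right
          intro x hx
          unfold BR at hx ⊢
          rw [mem_filter] at hx ⊢
          exact ⟨hx.1, hx.2.1, hx.2.2.trans_le h⟩)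
      refine le_trans (le_of_eq ?_) h2
      rw [Nat.card_eq_fintype_card, ← Fintype.card_subtype]
      exact Fintype.card_congr (Equiv.refl _)
    refine card_biUnion_le.trans ((Finset.sum_le_card_nsmul _ _ _ h1).trans ?_)
    rw [card_range, smul_eq_mul]
    have h3 : 1 ≤ 2 ^ n := Nat.one_le_two_pow
    calc N * (2 ^ n + 1) ≤ 2 ^ n * (2 ^ n + 2 ^ n) := Nat.mul_le_mul hN (by omega)
      _ = 2 ^ (2 * n + 1) := by
        rw [pow_succ, two_mul n, pow_add]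
        ring
      _ ≤ 2 ^ (2 * n + 2) := Nat.pow_le_pow_right (by norm_num) (by omega)

end ARMaux

open ARMaux in
theorem pf_ARM (hCAP : Pool.Agent.H53.MC.T_CAP) (hLFX : Pool.Agent.H15.FLX.T_LFX)
    (hHTX : Pool.Agent.H15.FLX.T_HTX) (hKSX : T_KSX) (hEBS : T_EBS) (hCHN : T_CHN)
    (hQPC : T_QPC) (hREG : T_REG) (hPRM : T_PRM) : T_ARM := by
  intro n M k μ g γ t w d s₀ q hinj hH1 hP 𝓠 N s f i₀ a h𝓠 hs1 hi₀
  classical
  obtain ⟨θ, hθ⟩ : ∃ θ, θ = th1 n w d s₀ s := ⟨_, rfl⟩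
  have hN1 : 1 ≤ N := by omega
  have hpd : 0 < 2 ^ (d * s₀) := by positivity
  have hth0 : th0 n w ≤ θ := by
    rw [hθ]
    unfold th1
    have h1 : th0 n w * 1 ≤ th0 n w * 2 ^ (d * s₀) := Nat.mul_le_mul_left _ hpd
    have h2 : th0 n w * 2 ^ (d * s₀) * 1 ≤ th0 n w * 2 ^ (d * s₀) * s :=
      Nat.mul_le_mul_left _ hs1
    calc th0 n w ≤ th0 n w * 2 ^ (d * s₀) * s := by omega
      _ ≤ 4 * (th0 n w * 2 ^ (d * s₀) * s) + 1 := by omega
      _ = 4 * (th0 n w * 2 ^ (d * s₀)) * s + 1 := by ring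
  have hθw : 2 ^ (n - w) < θ := by
    have : th0 n w = 2 ^ (n - w) + 1 := rfl
    omega
  obtain ⟨-, hKw, hKc⟩ := hKSX g d s₀ w θ hP.wn hθw
  obtain ⟨NS, hNS⟩ : ∃ NS, NS = Nat.card (Signs n M μ) := ⟨_, rfl⟩
  obtain ⟨Y, hY⟩ : ∃ Y, Y = (2 ^ k) ^ (q + 1) := ⟨_, rfl⟩
  obtain ⟨X, hX⟩ : ∃ X, X = (s₀ * μ) ^ (q + 1) * NS := ⟨_, rfl⟩
  have hYpos : 0 < Y := by
    rw [hY]
    positivity
  have hNpos : 0 < NS := by
    rw [hNS]
    exact Nat.card_pos
  -- the bad formulas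
  obtain ⟨b, hb⟩ : ∃ b, b = Nat.card {σ : Signs n M μ //
      ∃ i, i < N ∧ Bad g q (KS g d s₀ θ f i) (FG g σ)} := ⟨_, rfl⟩
  have hbad : b * Y ≤ N * X := by
    rw [hb]
    apply card_ex
    intro i _
    rw [hY, hX, hNS]
    refine hLFX g w s₀ q hinj hH1 (KS g d s₀ θ f i) (hKc f i) ?_
    rintro K ⟨a', rfl⟩ p hp
    exact hKw _ p hp
  have hbX : N ≤ 2 ^ n → 8 * (2 ^ t * b) ≤ NS := by
    intro hN
    have h1 := hP.bad
    have h2 : 8 * (2 ^ t * b) * Y ≤ NS * Y := by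
      calc 8 * (2 ^ t * b) * Y = 8 * (2 ^ t * (b * Y)) := by ring
        _ ≤ 8 * (2 ^ t * (N * X)) := by gcongr
        _ ≤ 8 * (2 ^ t * (2 ^ n * X)) := by gcongr
        _ = 2 ^ (n + t + 3) * (s₀ * μ) ^ (q + 1) * NS := by
          rw [hX, pow_add, pow_add]
          ring
        _ ≤ Y * NS := by
          rw [hY]
          exact Nat.mul_le_mul_right _ h1
        _ = NS * Y := Nat.mul_comm _ _
    exact Nat.le_of_mul_le_mul_right h2 hYpos
  -- irregular formulas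
  have hreg : N ≤ 2 ^ n → ∃ 𝓕 : Finset (Finset (Fin n → Bool)),
      (∀ i, i < N → ∀ a : ℝ, BR (ES g d s₀ θ f i) (f i) a ∈ 𝓕) ∧
      8 * (2 ^ t * Nat.card {σ : Signs n M μ //
        ¬ Reg g d s₀ (th0 n w) θ (qp 𝓠 t) 𝓕 (FG g σ)}) ≤ NS := by
    intro hN
    obtain ⟨𝓕, h1, h2⟩ := fam hCHN (ES g d s₀ θ f) f N hN
    refine ⟨𝓕, h1, ?_⟩
    have h3 := hREG (μ := μ) g γ t w d s₀ q θ hinj hH1 hP hth0 (qp 𝓠 t) 𝓕 (hQPC 𝓠 t h𝓠) h2
    rw [← hNS] at h3
    refine le_trans (le_of_eq ?_) h3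
    rw [pow_add]
    ring
  have hpr : s ≤ 2 ^ n → ∀ 𝓕 : Finset (Finset (Fin n → Bool)),
      (∀ i, i < N → ∀ a : ℝ, BR (ES g d s₀ θ f i) (f i) a ∈ 𝓕) →
      ∀ σ : Signs n M μ, DerivesR (Set.range (cf g (FG g σ))) f 𝓠 t s i₀ a →
      (∃ i, i < N ∧ Bad g q (KS g d s₀ θ f i) (FG g σ)) ∨
      (¬ Reg g d s₀ (th0 n w) θ (qp 𝓠 t) 𝓕 (FG g σ)) ∨
      (Lfc g (FG g σ) q (BR (ES g d s₀ θ f (i₀ + 1)) (f i₀) a) ∧
        ∀ p ∈ KerS g d s₀ θ (BR (ES g d s₀ θ f i₀) (f i₀) a), Hit g (FG g σ) p) := by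
    intro hs 𝓕 h𝓕 σ hD
    by_cases h1 : ∃ i, i < N ∧ Bad g q (KS g d s₀ θ f i) (FG g σ)
    · exact Or.inl h1
    by_cases h2 : Reg g d s₀ (th0 n w) θ (qp 𝓠 t) 𝓕 (FG g σ)
    · right
      right
      have ht2 := hP.t2
      rw [hθ] at h𝓕 h2 h1 ⊢
      exact hPRM g w s₀ d t q s N hinj hH1 hP.wn hP.n1 (by omega) hP.rr hs 𝓠 f 𝓕 h𝓕 (FG g σ)
        (fun i hi hbi => h1 ⟨i, hi, hbi⟩) h2 i₀ a hi₀ hD
    · exact Or.inr (Or.inl h2)
  -- the exceptions
  have hE : ((ES g d s₀ θ f (i₀ + 1)).card : ℝ) * 4 ≤ (N : ℝ) * s * 2 ^ ((1 - γ) * n) := by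
    have h1 : (ES g d s₀ θ f (i₀ + 1)).card ≤ N * (2 ^ (d * s₀) * θ) :=
      (hEBS g d s₀ θ f (i₀ + 1)).trans (Nat.mul_le_mul_right _ hi₀)
    have h2 : θ ≤ 5 * (th0 n w * 2 ^ (d * s₀)) * s := by
      have h3 : 1 ≤ th0 n w * 2 ^ (d * s₀) * s := by
        have : 0 < th0 n w := Nat.succ_pos _
        exact Nat.mul_pos (Nat.mul_pos this hpd) hs1
      rw [hθ]
      unfold th1
      calc 4 * (th0 n w * 2 ^ (d * s₀)) * s + 1 ≤
          4 * (th0 n w * 2 ^ (d * s₀)) * s + th0 n w * 2 ^ (d * s₀) * s := by omega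
        _ = 5 * (th0 n w * 2 ^ (d * s₀)) * s := by ring
    have h3 : (ES g d s₀ θ f (i₀ + 1)).card * 4 ≤
        N * s * (20 * (2 ^ (d * s₀) * ((2 ^ (n - w) + 1) * 2 ^ (d * s₀)))) := by
      calc _ ≤ N * (2 ^ (d * s₀) * (5 * (th0 n w * 2 ^ (d * s₀)) * s)) * 4 := by
            refine Nat.mul_le_mul_right _ (h1.trans ?_)
            gcongr
        _ = _ := by
          unfold th0
          ring
    have h4 : ((ES g d s₀ θ f (i₀ + 1)).card : ℝ) * 4 ≤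
        (N : ℝ) * s * (20 * ((2 : ℝ) ^ (d * s₀) * ((2 ^ (n - w) + 1) * 2 ^ (d * s₀)))) := by
      exact_mod_cast h3
    refine h4.trans ?_
    exact mul_le_mul_of_nonneg_left hP.tau (by positivity)
  have hsN : ((N * s : ℕ) : ℝ) ≤ 2 ^ (γ * n) → N ≤ 2 ^ n ∧ s ≤ 2 ^ n := by
    intro h
    have h1 := le_two_pow hP.γ1 h
    have h2 : N * 1 ≤ N * s := Nat.mul_le_mul_left _ hs1
    have h3 : 1 * s ≤ N * s := Nat.mul_le_mul_right _ hN1
    omega
  rw [← hNS]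
  constructor
  · -- (a)
    intro hNs hbb
    obtain ⟨hN, hs⟩ := hsN hNs
    obtain ⟨𝓕, h𝓕, h𝓕c⟩ := hreg hN
    have hall : ∀ σ : Signs n M μ, DerivesR (Set.range (cf g (FG g σ))) f 𝓠 t s i₀ a →
        (∃ i, i < N ∧ Bad g q (KS g d s₀ θ f i) (FG g σ)) ∨
        ¬ Reg g d s₀ (th0 n w) θ (qp 𝓠 t) 𝓕 (FG g σ) := by
      intro σ hσ
      rcases hpr hs 𝓕 h𝓕 σ hσ with h | h | ⟨⟨T, hT1, hT2, hT3⟩, _⟩
      · exact Or.inl h
      · exact Or.inr h
      exfalso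
      have hcap := hCAP g q hinj T _ hT2 hT3
      have hsub : (univ.filter fun x : Fin n → Bool => f i₀ x < a) ⊆
          ES g d s₀ θ f (i₀ + 1) ∪ BR (ES g d s₀ θ f (i₀ + 1)) (f i₀) a := by
        intro x hx
        rw [mem_filter] at hx
        rw [mem_union]
        by_cases hxe : x ∈ ES g d s₀ θ f (i₀ + 1)
        · exact Or.inl hxe
        · right
          unfold BR
          rw [mem_filter]
          exact ⟨mem_univ _, hxe, hx.2⟩
      have hcard : Nat.card {x : Fin n → Bool // f i₀ x < a} ≤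
          (ES g d s₀ θ f (i₀ + 1)).card + q * 2 ^ (n - k) := by
        rw [Nat.card_eq_fintype_card, Fintype.card_subtype]
        calc _ ≤ _ := card_le_card hsub
          _ ≤ _ := card_union_le _ _
          _ ≤ _ := Nat.add_le_add_left hcap _
      have hr : ((ES g d s₀ θ f (i₀ + 1)).card : ℝ) * 4 ≤ 2 ^ n := by
        refine hE.trans ?_
        have h1 : (N : ℝ) * s ≤ 2 ^ (γ * n) := by exact_mod_cast hNs
        calc (N : ℝ) * s * 2 ^ ((1 - γ) * n) ≤ 2 ^ (γ * n) * 2 ^ ((1 - γ) * n) :=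
              mul_le_mul_of_nonneg_right h1 (by positivity)
          _ = 2 ^ n := pow_split n
      have hr' : (ES g d s₀ θ f (i₀ + 1)).card * 4 ≤ 2 ^ n := by exact_mod_cast hr
      have hcov := hP.cov
      omega
    have ha : Nat.card {σ : Signs n M μ // DerivesR (Set.range (cf g (FG g σ))) f 𝓠 t s i₀ a} ≤
        b + Nat.card {σ : Signs n M μ //
          ¬ Reg g d s₀ (th0 n w) θ (qp 𝓠 t) 𝓕 (FG g σ)} := by
      rw [hb]
      exact (card_mono hall).trans (card_or _ _)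
    have h1 := hbX hN
    have h2 := Nat.mul_le_mul_left (2 ^ t) ha
    rw [Nat.mul_add] at h2
    omega
  · -- (b)
    intro hbb
    have hbn : Nat.card {x : Fin n → Bool // f i₀ x < a} ≤ 2 ^ n := by
      rw [Nat.card_eq_fintype_card]
      refine le_trans (Fintype.card_subtype_le _) ?_
      simp
    have hNs : ((N * s : ℕ) : ℝ) ≤ 2 ^ (γ * n) := by
      have h1 : ((N * s : ℕ) : ℝ) * 2 ^ ((1 - γ) * n) < 2 ^ n := by
        refine lt_of_lt_of_le hbb ?_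
        exact_mod_cast hbn
      rw [← pow_split (γ := γ) n] at h1
      have h2 : (0 : ℝ) < 2 ^ ((1 - γ) * n) := by positivity
      exact le_of_lt (lt_of_mul_lt_mul_right h1 h2.le)
    obtain ⟨hN, hs⟩ := hsN hNs
    obtain ⟨𝓕, h𝓕, h𝓕c⟩ := hreg hN
    -- a point outside of the exceptions
    obtain ⟨x, hxθ, hxE⟩ : ∃ x : Fin n → Bool, f i₀ x < a ∧ x ∉ ES g d s₀ θ f (i₀ + 1) := by
      by_contra hcon
      push Not at hcon
      have hsub : (univ.filter fun x : Fin n → Bool => f i₀ x < a) ⊆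
          ES g d s₀ θ f (i₀ + 1) := by
        intro x hx
        rw [mem_filter] at hx
        exact hcon x hx.2
      have hcard : Nat.card {x : Fin n → Bool // f i₀ x < a} ≤
          (ES g d s₀ θ f (i₀ + 1)).card := by
        rw [Nat.card_eq_fintype_card, Fintype.card_subtype]
        exact card_le_card hsub
      have hcr : (Nat.card {x : Fin n → Bool // f i₀ x < a} : ℝ) ≤
          ((ES g d s₀ θ f (i₀ + 1)).card : ℝ) := by exact_mod_cast hcard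
      have h3 : (0 : ℝ) ≤ ((ES g d s₀ θ f (i₀ + 1)).card : ℝ) := Nat.cast_nonneg _
      rw [Nat.cast_mul] at hbb
      linarith
    have hEEs : ES g d s₀ θ f (i₀ + 1) = ES g d s₀ θ f i₀ ∪ univ.filter fun x => ∃ a : ℝ,
        x ∈ ErrS g d s₀ θ (BR (ES g d s₀ θ f i₀) (f i₀) a) := rfl
    rw [hEEs, mem_union, not_or, mem_filter, not_and] at hxE
    have hxB : x ∈ BR (ES g d s₀ θ f i₀) (f i₀) a := by
      unfold BR
      rw [mem_filter]
      exact ⟨mem_univ _, hxE.1, hxθ⟩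
    have hxErr : x ∉ ErrS g d s₀ θ (BR (ES g d s₀ θ f i₀) (f i₀) a) := fun hx =>
      hxE.2 (mem_univ _) ⟨a, hx⟩
    obtain ⟨A, hAK⟩ : ∃ A : Finset (Fin n),
        (A, x) ∈ KerS g d s₀ θ (BR (ES g d s₀ θ f i₀) (f i₀) a) := by
      by_contra hcon
      push Not at hcon
      apply hxErr
      unfold ErrS
      rw [mem_filter]
      exact ⟨hxB, hcon⟩
    have hA : A.card < w := hKw _ (A, x) hAK
    have hall : ∀ σ : Signs n M μ, DerivesR (Set.range (cf g (FG g σ))) f 𝓠 t s i₀ a →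
        ((∃ i, i < N ∧ Bad g q (KS g d s₀ θ f i) (FG g σ)) ∨
        ¬ Reg g d s₀ (th0 n w) θ (qp 𝓠 t) 𝓕 (FG g σ)) ∨ ∃ j, Ins g (A, x) (FG g σ j) := by
      intro σ hσ
      rcases hpr hs 𝓕 h𝓕 σ hσ with h | h | ⟨_, h⟩
      · exact Or.inl (Or.inl h)
      · exact Or.inl (Or.inr h)
      · exact Or.inr (h (A, x) hAK)
    have hhit := hHTX (μ := μ) g w s₀ hinj hH1 (A, x) hA
    rw [← hNS] at hhit
    obtain ⟨c, hc⟩ : ∃ c, c = Nat.card {σ : Signs n M μ // ∃ j, Ins g (A, x) (FG g σ j)} :=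
      ⟨_, rfl⟩
    obtain ⟨b', hb'⟩ : ∃ b', b' = Nat.card {σ : Signs n M μ //
          ¬ Reg g d s₀ (th0 n w) θ (qp 𝓠 t) 𝓕 (FG g σ)} := ⟨_, rfl⟩
    rw [← hc] at hhit
    rw [← hb'] at h𝓕c
    have ha : Nat.card {σ : Signs n M μ // DerivesR (Set.range (cf g (FG g σ))) f 𝓠 t s i₀ a} ≤
        b + b' + c := by
      rw [hb, hc, hb']
      exact ((card_mono hall).trans (card_or _ _)).trans (Nat.add_le_add_right (card_or _ _) _)
    have h1 := hbX hN
    have h2 := hP.hit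
    have h3 : t ≤ 2 ^ t := Nat.lt_two_pow_self.le
    have h4 : 8 * (t * b) ≤ NS := le_trans (by gcongr) h1
    have h4' : 8 * (t * b') ≤ NS := le_trans (by gcongr) h𝓕c
    have h5 : t * Nat.card {σ : Signs n M μ //
        DerivesR (Set.range (cf g (FG g σ))) f 𝓠 t s i₀ a} ≤ t * b + t * b' + t * c := by
      rw [← Nat.mul_add, ← Nat.mul_add]
      exact Nat.mul_le_mul_left _ ha
    have h6 : 16 * (t * c) ≤ NS := by
      have h7 : 16 * (t * c) * 2 ^ k ≤ NS * 2 ^ k := by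
        calc 16 * (t * c) * 2 ^ k = 16 * (t * (c * 2 ^ k)) := by ring
          _ ≤ 16 * (t * (s₀ * μ * NS)) := by gcongr
          _ = 16 * (t * (s₀ * μ)) * NS := by ring
          _ ≤ 2 ^ k * NS := Nat.mul_le_mul_right _ h2
          _ = NS * 2 ^ k := Nat.mul_comm _ _
      exact Nat.le_of_mul_le_mul_right h7 (by positivity)
    omega

end Pool.Agent.H20.MWK
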