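import Pool.Agent.H53.MW.Targets

/-!
MP_c62aed_lc, permanent lines and work memory, row NMM: the parameters
(after Pool/Agent/H75/FLX/NMX.lean).
-/

set_option autoImplicit false

namespace Pool.Agent.H20.MWK

open Pool.Agent.H53.MW

/-- The exponent of the count of exceptions. -/
theorem tau_exp (ε β : ℝ) (n k w d s : ℕ) (hε : 0 < ε) (hε1 : ε ≤ 1)
    (hkn : 16384 * (k : ℝ) ≤ ε * n) (hk : 1 ≤ k) (hwn : w ≤ n)
    (hw : β * n - 1 ≤ (w : ℝ) + k) (hd : 64 * (d : ℝ) ≤ ε ^ 2 * k)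
    (hs : (s : ℝ) * (ε * k) ≤ 2 * n + ε * k) :
    20 * ((2 : ℝ) ^ (d * s) * ((2 ^ (n - w) + 1) * 2 ^ (d * s))) ≤
      2 ^ ((1 - (β - ε)) * n) := by
  have hkR : (1 : ℝ) ≤ k := by exact_mod_cast hk
  have hn0 : (0 : ℝ) ≤ n := Nat.cast_nonneg n
  have h1 : (1 : ℝ) ≤ 2 ^ (n - w) := one_le_pow₀ (by norm_num)
  have h2 : 20 * ((2 : ℝ) ^ (d * s) * ((2 ^ (n - w) + 1) * 2 ^ (d * s))) ≤
      (2 : ℝ) ^ (6 + 2 * (d * s) + (n - w)) := by
    calc 20 * ((2 : ℝ) ^ (d * s) * ((2 ^ (n - w) + 1) * 2 ^ (d * s))) ≤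
        32 * ((2 : ℝ) ^ (d * s) * ((2 ^ (n - w) + 2 ^ (n - w)) * 2 ^ (d * s))) := by
          gcongr
          norm_num
      _ = (2 : ℝ) ^ (6 + 2 * (d * s) + (n - w)) := by
          rw [pow_add, pow_add, two_mul (d * s), pow_add]
          ring
  refine h2.trans ?_
  rw [← Real.rpow_natCast]
  apply Real.rpow_le_rpow_of_exponent_le (by norm_num)
  push_cast
  rw [Nat.cast_sub hwn]
  have h3 : 64 * ((d : ℝ) * s) ≤ ε * (2 * n + ε * k) := by
    calc 64 * ((d : ℝ) * s) = (64 * d) * s := by ring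
      _ ≤ (ε ^ 2 * k) * s := mul_le_mul_of_nonneg_right hd (Nat.cast_nonneg _)
      _ = ε * (s * (ε * k)) := by ring
      _ ≤ ε * (2 * n + ε * k) := mul_le_mul_of_nonneg_left hs hε.le
  have h4 : ε * (ε * k) ≤ k := by
    calc ε * (ε * k) = (ε * ε) * k := by ring
      _ ≤ 1 * k := by
        apply mul_le_mul_of_nonneg_right _ (by linarith)
        calc ε * ε ≤ 1 * 1 := mul_le_mul hε1 hε1 hε.le zero_le_one
          _ = 1 := one_mul _
      _ = k := one_mul _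
  have h5 : ε * (2 * n + ε * k) = 2 * (ε * n) + ε * (ε * k) := by ring
  have h6 : (1 - (β - ε)) * n = n - β * n + ε * n := by ring
  rw [h6]
  linarith

theorem pf_NMM : T_NMM := by
  refine ⟨16384, ?_⟩
  intro ε β n t k μ hε hεβ hβ ht hnt hk hkn htk
  have hε1 : ε < 1 := by linarith
  obtain ⟨l, hl⟩ : ∃ l, l = Nat.log 2 t := ⟨_, rfl⟩
  rw [← hl] at hk
  have hl1 : 1 ≤ l := by
    rw [hl]
    exact Nat.log_pos (by norm_num) (by omega)
  have ht2 : t < 2 ^ (l + 1) := by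
    rw [hl]
    exact Nat.lt_pow_succ_log_self (by norm_num) t
  have hlR : (1 : ℝ) ≤ l := by exact_mod_cast hl1
  have hk0 : (0 : ℝ) ≤ k := Nat.cast_nonneg k
  have hn0 : (0 : ℝ) ≤ n := Nat.cast_nonneg n
  have hk' : 16384 * (l : ℝ) ≤ ε ^ 2 * k := by exact_mod_cast hk
  have hkn' : 16384 * (k : ℝ) ≤ ε * n := by exact_mod_cast hkn
  have hε2 : ε ^ 2 ≤ 1 := pow_le_one₀ hε.le hε1.le
  have hεk : ε ^ 2 * k ≤ ε * k := by
    apply mul_le_mul_of_nonneg_right _ hk0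
    calc ε ^ 2 = ε * ε := pow_two ε
      _ ≤ ε * 1 := mul_le_mul_of_nonneg_left hε1.le hε.le
      _ = ε := mul_one ε
  have hlkR : 16384 * (l : ℝ) ≤ k := by
    have : ε ^ 2 * k ≤ 1 * k := mul_le_mul_of_nonneg_right hε2 hk0
    linarith
  have hlk : 16384 * l ≤ k := by exact_mod_cast hlkR
  have hεn : ε * n ≤ β * n := mul_le_mul_of_nonneg_right hεβ.le hn0
  have hεn1 : ε * n ≤ n := by
    have := mul_le_mul_of_nonneg_right hε1.le hn0
    linarith
  have hβn : β * n ≤ n := by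
    have := mul_le_mul_of_nonneg_right hβ hn0
    linarith
  obtain ⟨f, hf⟩ : ∃ f, f = ⌊β * n⌋₊ := ⟨_, rfl⟩
  have hβ0 : 0 ≤ β * n := by
    have : 0 ≤ ε * n := by positivity
    linarith
  have hf1 : (f : ℝ) ≤ β * n := by
    rw [hf]
    exact Nat.floor_le hβ0
  have hf2 : β * n < f + 1 := by
    rw [hf]
    exact Nat.lt_floor_add_one _
  have hf3 : 16384 * k ≤ f := by
    rw [hf]
    apply Nat.le_floor
    push_cast
    linarith
  have hf4 : f ≤ n := by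
    have : (f : ℝ) ≤ n := by linarith
    exact_mod_cast this
  have hk1 : 1 ≤ k := by omega
  have hkn1 : k ≤ n := by omega
  -- the number `d`
  obtain ⟨d, hd⟩ : ∃ d, d = ⌊ε ^ 2 * k / 64⌋₊ := ⟨_, rfl⟩
  have hd1 : 64 * (d : ℝ) ≤ ε ^ 2 * k := by
    have : (d : ℝ) ≤ ε ^ 2 * k / 64 := by
      rw [hd]
      exact Nat.floor_le (by positivity)
    linarith
  have hd2 : 256 * l ≤ d := by
    rw [hd]
    apply Nat.le_floor
    push_cast
    linarith
  -- the number `s₀`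
  have hek : 16384 ≤ ε * k := by linarith
  have hek0 : 0 < ε * k := by linarith
  obtain ⟨s, hs⟩ : ∃ s, s = ⌈2 * n / (ε * k)⌉₊ := ⟨_, rfl⟩
  have hs1 : 2 * (n : ℝ) / (ε * k) ≤ s := by
    rw [hs]
    exact Nat.le_ceil _
  have hs2 : (s : ℝ) < 2 * n / (ε * k) + 1 := by
    rw [hs]
    exact Nat.ceil_lt_add_one (by positivity)
  have hs3 : (s : ℝ) * (ε * k) ≤ 2 * n + ε * k := by
    have h1 := mul_le_mul_of_nonneg_right hs2.le hek0.le
    have h2 : (2 * (n : ℝ) / (ε * k) + 1) * (ε * k) = 2 * n + ε * k := by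
      rw [add_mul, one_mul, div_mul_cancel₀ _ hek0.ne']
    linarith
  have hs4 : s ≤ n := by
    have h1 : (s : ℝ) < 2 * n / 16384 + 1 := by
      refine hs2.trans_le ?_
      gcongr
    have h2 : (s : ℝ) < n := by
      have h3 : (16384 : ℝ) * k ≤ n := by linarith
      have h4 : (1 : ℝ) ≤ k := by exact_mod_cast hk1
      linarith
    have h3 : s < n := by exact_mod_cast h2
    omega
  have hs5 : s ≤ t := hs4.trans hnt
  have ht1 : 1 ≤ t := by omega
  have htk' : 16384 * (t * t * μ) ≤ 2 ^ k := by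
    calc 16384 * (t * t * μ) = 16384 * t ^ 2 * μ := by ring
      _ ≤ 2 ^ k := htk
  have hst : s * μ ≤ t * t * μ := by
    apply Nat.mul_le_mul_right
    calc s ≤ t := hs5
      _ ≤ t * t := Nat.le_mul_self t
  have hts : t * (s * μ) ≤ t * t * μ := by
    calc t * (s * μ) = t * s * μ := by ring
      _ ≤ t * t * μ := Nat.mul_le_mul_right _ (Nat.mul_le_mul_left _ hs5)
  refine ⟨f - k, d, s, 4 * t,
    ⟨ht, by omega, hnt, hk1, hkn1, by omega, by omega, by omega, by linarith, ?_, ?_, ?_, ?_, ?_,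
      ?_, ?_⟩, ?_, ?_⟩
  · -- rr
    have e1 : t * t ≤ t * t * t := Nat.le_mul_of_pos_right _ (by omega)
    have e2 : t * t * t < 2 ^ (l + 1) * 2 ^ (l + 1) * 2 ^ (l + 1) := by
      calc t * t * t ≤ 2 ^ (l + 1) * 2 ^ (l + 1) * t := by gcongr
        _ < 2 ^ (l + 1) * 2 ^ (l + 1) * 2 ^ (l + 1) :=
          Nat.mul_lt_mul_of_pos_left ht2 (by positivity)
    calc t * t + t * t * (4 * t) = t * t + 4 * (t * t * t) := by ring
      _ ≤ 5 * (t * t * t) := by omega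
      _ < 5 * (2 ^ (l + 1) * 2 ^ (l + 1) * 2 ^ (l + 1)) := by omega
      _ ≤ 2 ^ 3 * (2 ^ (l + 1) * 2 ^ (l + 1) * 2 ^ (l + 1)) :=
          Nat.mul_le_mul_right _ (by norm_num)
      _ = 2 ^ (3 + (l + 1) + (l + 1) + (l + 1)) := by
          rw [pow_add, pow_add, pow_add]
          ring
      _ ≤ 2 ^ d := Nat.pow_le_pow_right (by norm_num) (by omega)
  · -- dd
    calc 2 ^ 8 * t ^ 4 ≤ 2 ^ 8 * (2 ^ (l + 1)) ^ 4 := by gcongr
      _ = 2 ^ (8 + (l + 1) * 4) := by rw [← pow_mul, ← pow_add]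
      _ ≤ 2 ^ d := Nat.pow_le_pow_right (by norm_num) (by omega)
  · -- tau
    refine tau_exp ε β n k (f - k) d s hε hε1.le hkn' hk1 (by omega) ?_ hd1 hs3
    rw [Nat.cast_sub (by omega)]
    linarith
  · -- cov
    have e2 : (2 : ℕ) ^ n = 2 ^ k * 2 ^ (n - k) := by
      rw [← pow_add]
      congr 1
      omega
    rw [e2]
    have h1 : 16 * t < 2 ^ k := by
      calc 16 * t < 16 * 2 ^ (l + 1) := by omega
        _ = 2 ^ (l + 5) := by
          rw [pow_add, pow_add]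
          ring
        _ ≤ 2 ^ k := Nat.pow_le_pow_right (by norm_num) (by omega)
    calc 4 * (4 * t * 2 ^ (n - k)) = (16 * t) * 2 ^ (n - k) := by ring
      _ < 2 ^ k * 2 ^ (n - k) := Nat.mul_lt_mul_of_pos_right h1 (by positivity)
  · -- bad
    have h8 : 2 * (s * μ) ≤ 2 ^ k := by omega
    calc 2 ^ (n + t + 3) * (s * μ) ^ (4 * t + 1)
        ≤ 2 ^ (4 * t + 1) * (s * μ) ^ (4 * t + 1) :=
          Nat.mul_le_mul_right _ (Nat.pow_le_pow_right (by norm_num) (by omega))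
      _ = (2 * (s * μ)) ^ (4 * t + 1) := (mul_pow _ _ _).symm
      _ ≤ (2 ^ k) ^ (4 * t + 1) := Nat.pow_le_pow_left h8 _
  · -- hit
    omega
  · -- los
    calc 16 * (n + 1) * (s * μ) ≤ 16 * (t + t) * (s * μ) := by gcongr
      _ = 32 * (t * (s * μ)) := by ring
      _ ≤ 2 ^ k := by omega
  · -- w + k
    rw [Nat.cast_sub (by omega)]
    linarith
  · -- the last inequality
    rw [div_le_iff₀ hek0] at hs1
    have h9 : ε * k * ((s : ℝ) + 1) = s * (ε * k) + ε * k := by ring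
    rw [h9]
    linarith

end Pool.Agent.H20.MWK
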